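import Pool.Agent.H65BC.Main

/-!
# MP_f73729_an, Q1: Hölder Besicovitch cylindrical transformations with all exponents below one

If the rotation number `α` satisfies `‖n α‖ ≥ c |n| ^ (-τ)` for all `n ≠ 0`, then there is one function
`φ`, Hölder continuous with every exponent `γ < 1 / τ`, such that the cylindrical transformation
`T_φ (x, y) = (x + α, y + φ x)` has a dense orbit and a discrete orbit. For `α = √2` (and every badly
approximable `α`) all exponents `γ < 1` occur, and for almost every `α` this holds for every `γ < 1`.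
Functions of bounded variation never have this property (Denjoy-Koksma), so `1` is the threshold.

The function is `φ = ∑_k φ_k`, where `φ_k` is `(k + 1) / 2 ^ k` times the sum of disjoint tents of width
comparable to `2 ^ (-τ k)` centred at `m α`, `0 ≤ m < 2 ^ k`, minus the sum of those centred at `m α`,
`-2 ^ k ≤ m < 0`. The Birkhoff sums of each `φ_k` along the orbit of `0` are nonnegative, and those of
length `n`, `2 ^ k ≤ |n| < 2 ^ (k + 1)`, are equal to `k + 1`.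
-/

set_option autoImplicit false

namespace Pool.Agent.Results.MP_f73729_an.AllExponentsBelowOne

open Pool.Agent.H65BC

/-- Q1 has a positive answer, with all exponents `γ < 1`. -/
theorem result :
    (∀ α c τ : ℝ, 0 < c → 1 ≤ τ → (∀ n : ℤ, n ≠ 0 → c * |(n : ℝ)| ^ (-τ) ≤ ‖n • (α : Circ)‖) →
      Irrational α ∧ ∃ φ : C(Circ, ℝ),
        (∀ γ : ℝ, 0 < γ → γ * τ < 1 → IsHolderExp γ φ) ∧ IsBesicovitch α φ) ∧
    (Irrational (√2) ∧ ∃ φ : C(Circ, ℝ),
      (∀ γ : ℝ, 0 < γ → γ < 1 → IsHolderExp γ φ) ∧ IsBesicovitch (√2) φ) ∧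
    (∀ᵐ α : ℝ, Irrational α ∧ ∀ γ : ℝ, 0 < γ → γ < 1 →
      ∃ φ : C(Circ, ℝ), IsHolderExp γ φ ∧ IsBesicovitch α φ) := by
  have main : ∀ α c τ : ℝ, 0 < c → 1 ≤ τ →
      (∀ n : ℤ, n ≠ 0 → c * |(n : ℝ)| ^ (-τ) ≤ ‖n • (α : Circ)‖) →
      Irrational α ∧ ∃ φ : C(Circ, ℝ),
        (∀ γ : ℝ, 0 < γ → γ * τ < 1 → IsHolderExp γ φ) ∧ IsBesicovitch α φ := by
    intro α c τ hc hτ hD
    have hτ0 : 0 ≤ τ := by linarith
    refine ⟨irrational_of_dioph hc hD, phi α c τ hc hτ0 hD, fun γ h0 h1 => ?_,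
      besicovitch_phi hc hτ0 hD⟩
    refine holder_phi hc hτ0 hD h0 ?_ h1
    nlinarith
  refine ⟨main, ⟨irrational_sqrt_two, ?_⟩, ?_⟩
  · obtain ⟨-, φ, h1, h2⟩ := main (√2) (1 / 4) 1 (by norm_num) le_rfl dioph_sqrt_two
    exact ⟨φ, fun γ h0 h3 => h1 γ h0 (by linarith), h2⟩
  · filter_upwards [dioph_ae] with α hα
    refine ⟨hα.1, fun γ h0 h1 => ?_⟩
    obtain ⟨τ, hτ1, hτ2⟩ : ∃ τ : ℝ, 1 < τ ∧ γ * τ < 1 := by
      refine ⟨(1 + 1 / γ) / 2, ?_, ?_⟩
      · have : 1 < 1 / γ := by rwa [lt_div_iff₀ h0, one_mul]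
        linarith
      · have : γ * ((1 + 1 / γ) / 2) = (γ + 1) / 2 := by field_simp
        rw [this]
        linarith
    obtain ⟨c, hc, hD⟩ := hα.2 τ hτ1
    obtain ⟨-, φ, h3, h4⟩ := main α c τ hc hτ1.le hD
    exact ⟨φ, h3 γ h0 hτ2, h4⟩

end Pool.Agent.Results.MP_f73729_an.AllExponentsBelowOne
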